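import Mathlib

set_option autoImplicit false

namespace Pool.Agent.Helper573.Simplex

open Finset

/-- Key criterion. Rows `R`, columns `C`, `card R = card C + 1`, matrices `V` (vertices in the
cube `[-1,1]^C`) and `U` (gradients of the barycentric coordinates). -/
theorem key {R C : Type*} [Fintype R] [Fintype C] [DecidableEq R] [DecidableEq C]
    (n : ℕ) (hn : 0 < n) (eR : Fin (n + 1) ≃ R) (eC : Fin n ≃ C)
    (V U : R → C → ℝ)
    (hV : ∀ j i, |V j i| ≤ 1)
    (hbal : ∀ i, ∑ j, V j i = 0)
    (hU0 : ∀ i, ∑ j, U j i = 0)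
    (horth : ∀ i i', ∑ j, U j i * V j i' = if i = i' then 1 else 0)
    (hnorm : ∀ j, ∑ i, |U j i| ≤ (n : ℝ) / (n + 1)) :
    ∃ v : Fin (n + 1) → (Fin n → ℝ),
        AffineIndependent ℝ v ∧
        (∀ i j, v i j ∈ Set.Icc (0 : ℝ) 1) ∧
        ∀ x : Fin n → ℝ, (∀ j, x j ∈ Set.Icc (0 : ℝ) 1) →
          x ∈ ⇑(AffineMap.homothety (Finset.univ.centroid ℝ v) (n : ℝ)) ''
            convexHull ℝ (Set.range v) := by
  have hm : (0 : ℝ) < n + 1 := by positivity
  have hn' : (0 : ℝ) < n := by exact_mod_cast hn
  -- the square matrix identity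
  obtain ⟨W, hWl, hWr⟩ : ∃ W : Matrix R (C ⊕ Unit) ℝ,
      (∀ j i, W j (Sum.inl i) = V j i) ∧ (∀ j u, W j (Sum.inr u) = 1) :=
    ⟨Matrix.of fun j c => Sum.elim (fun i => V j i) (fun _ => 1) c, fun _ _ => rfl, fun _ _ => rfl⟩
  obtain ⟨Y, hYl, hYr⟩ : ∃ Y : Matrix R (C ⊕ Unit) ℝ,
      (∀ j i, Y j (Sum.inl i) = U j i) ∧ (∀ j u, Y j (Sum.inr u) = 1 / ((n : ℝ) + 1)) :=
    ⟨Matrix.of fun j c => Sum.elim (fun i => U j i) (fun _ => 1 / ((n : ℝ) + 1)) c,
      fun _ _ => rfl, fun _ _ => rfl⟩
  have hcardR : Fintype.card R = n + 1 := by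
    rw [← Fintype.card_congr eR, Fintype.card_fin]
  have hcardC : Fintype.card C = n := by
    rw [← Fintype.card_congr eC, Fintype.card_fin]
  have h1 : Y.transpose * W = 1 := by
    ext a b
    rw [Matrix.mul_apply]
    rcases a with i | u <;> rcases b with i' | u'
    · simp only [Matrix.transpose_apply, hWl, hYl, Matrix.one_apply, Sum.inl.injEq]
      exact horth i i'
    · simp only [Matrix.transpose_apply, hWr, hYl, mul_one, Matrix.one_apply, reduceCtorEq,
        if_false]
      exact hU0 i
    · simp only [Matrix.transpose_apply, hWl, hYr, Matrix.one_apply, reduceCtorEq, if_false]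
      rw [← Finset.mul_sum, hbal, mul_zero]
    · simp only [Matrix.transpose_apply, hWr, hYr, mul_one,
        Matrix.one_apply, Finset.sum_const, Finset.card_univ, hcardR, nsmul_eq_mul]
      push_cast
      rw [mul_one_div_cancel hm.ne']
  have hcard : Fintype.card (C ⊕ Unit) = Fintype.card R := by
    rw [Fintype.card_sum, hcardC, hcardR, Fintype.card_unit]
  have h2 : W * Y.transpose = 1 := (Matrix.mul_eq_one_comm_of_card_eq (m := C ⊕ Unit) (n := R) ℝ hcard).1 h1
  have h3 : ∀ j l, (∑ i, V j i * U l i) + 1 / ((n : ℝ) + 1) = if j = l then 1 else 0 := by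
    intro j l
    have := congrFun (congrFun h2 j) l
    rw [Matrix.mul_apply, Fintype.sum_sum_type, Matrix.one_apply] at this
    simpa [Matrix.transpose_apply, hWl, hWr, hYl, hYr] using this
  let v : Fin (n + 1) → (Fin n → ℝ) := fun j i => (1 + V (eR j) (eC i)) / 2
  have hcent : (Finset.univ : Finset (Fin (n + 1))).centroid ℝ v = fun _ => 1 / 2 := by
    rw [Finset.centroid_def, Finset.affineCombination_eq_linear_combination _ _ _ ?_]
    · ext i
      simp only [Finset.centroidWeights_apply, Finset.card_univ, Fintype.card_fin, Finset.sum_apply,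
        Pi.smul_apply, smul_eq_mul, v]
      rw [← Finset.mul_sum, ← Finset.sum_div, Finset.sum_add_distrib]
      have : ∑ x : Fin (n + 1), V (eR x) (eC i) = 0 := by
        rw [← hbal (eC i)]
        exact Equiv.sum_comp eR (fun j => V j (eC i))
      rw [this]
      simp only [Finset.sum_const, Finset.card_univ, Fintype.card_fin, nsmul_eq_mul, mul_one,
        add_zero]
      push_cast
      field_simp
    · apply Finset.sum_centroidWeights_eq_one_of_card_ne_zero
      simp
  refine ⟨v, ?_, ?_, ?_⟩
  · rw [affineIndependent_iff_of_fintype]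
    intro w hw hsum
    rw [Finset.weightedVSub_eq_linear_combination Finset.univ hw] at hsum
    have hcol : ∀ i : C, ∑ j : Fin (n + 1), w j * V (eR j) i = 0 := by
      intro i
      have h := congrFun hsum (eC.symm i)
      simp only [Finset.sum_apply, Pi.smul_apply, smul_eq_mul, Pi.zero_apply, v,
        Equiv.apply_symm_apply] at h
      have h' : ∑ j : Fin (n + 1), w j * ((1 + V (eR j) i) / 2)
          = (∑ j, w j) / 2 + (∑ j, w j * V (eR j) i) / 2 := by
        rw [Finset.sum_div, Finset.sum_div, ← Finset.sum_add_distrib]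
        apply Finset.sum_congr rfl
        intro j _
        ring
      rw [h', hw] at h
      linarith
    intro l
    have key2 : w l = ∑ j : Fin (n + 1), w j * ((∑ i, V (eR j) i * U (eR l) i) + 1 / ((n : ℝ) + 1)) := by
      have : ∀ j : Fin (n + 1), w j * ((∑ i, V (eR j) i * U (eR l) i) + 1 / ((n : ℝ) + 1))
          = if j = l then w j else 0 := by
        intro j
        rw [h3]
        by_cases hjl : j = l
        · simp [hjl]
        · have : eR j ≠ eR l := fun h => hjl (eR.injective h)
          simp [hjl, this]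
      rw [Finset.sum_congr rfl (fun j _ => this j)]
      simp
    rw [key2]
    have : ∑ j : Fin (n + 1), w j * ((∑ i, V (eR j) i * U (eR l) i) + 1 / ((n : ℝ) + 1))
        = (∑ i, (∑ j, w j * V (eR j) i) * U (eR l) i) + (∑ j, w j) * (1 / ((n : ℝ) + 1)) := by
      simp only [mul_add, Finset.sum_add_distrib, Finset.sum_mul, Finset.mul_sum]
      congr 1
      rw [Finset.sum_comm]
      apply Finset.sum_congr rfl
      intro i _
      apply Finset.sum_congr rfl
      intro j _
      ring
    rw [this, hw]
    simp [hcol]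
  · intro j i
    have := abs_le.1 (hV (eR j) (eC i))
    simp only [v, Set.mem_Icc]
    constructor <;> linarith [this.1, this.2]
  · intro x hx
    -- z = 2x - 1
    let z : C → ℝ := fun i => 2 * x (eC.symm i) - 1
    have hz : ∀ i, |z i| ≤ 1 := by
      intro i
      have := hx (eC.symm i)
      rw [Set.mem_Icc] at this
      simp only [z]
      rw [abs_le]
      constructor <;> linarith [this.1, this.2]
    let lam : R → ℝ := fun j => 1 / ((n : ℝ) + 1) + ∑ i, U j i * z i
    have hlam : ∀ j, -((n : ℝ) - 1) / (n + 1) ≤ lam j := by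
      intro j
      have h4 : |∑ i, U j i * z i| ≤ (n : ℝ) / (n + 1) := by
        calc |∑ i, U j i * z i| ≤ ∑ i, |U j i * z i| := Finset.abs_sum_le_sum_abs _ _
          _ ≤ ∑ i, |U j i| := by
            apply Finset.sum_le_sum
            intro i _
            rw [abs_mul]
            exact mul_le_of_le_one_right (abs_nonneg _) (hz i)
          _ ≤ _ := hnorm j
      have h5 := (abs_le.1 h4).1
      simp only [lam]
      have : -((n : ℝ) - 1) / (n + 1) = 1 / ((n : ℝ) + 1) - (n : ℝ) / (n + 1) := by ring
      rw [this]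
      linarith
    have hlam1 : ∑ j, lam j = 1 := by
      simp only [lam, Finset.sum_add_distrib, Finset.sum_const, Finset.card_univ, hcardR,
        nsmul_eq_mul]
      rw [Finset.sum_comm]
      simp only [← Finset.sum_mul, hU0]
      push_cast
      simp only [zero_mul, Finset.sum_const_zero, add_zero]
      exact mul_one_div_cancel hm.ne'
    have hlamV : ∀ i', ∑ j, lam j * V j i' = z i' := by
      intro i'
      simp only [lam, add_mul, Finset.sum_add_distrib, Finset.sum_mul]
      rw [← Finset.mul_sum, hbal, mul_zero, zero_add, Finset.sum_comm]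
      have : ∀ i, ∑ j, U j i * z i * V j i' = if i = i' then z i else 0 := by
        intro i
        have h6 : ∑ j, U j i * z i * V j i' = z i * ∑ j, U j i * V j i' := by
          rw [Finset.mul_sum]
          apply Finset.sum_congr rfl
          intro j _
          ring
        rw [h6, horth]
        split_ifs <;> simp
      rw [Finset.sum_congr rfl (fun i _ => this i)]
      simp
    obtain ⟨mu, hmu⟩ : ∃ mu : Fin (n + 1) → ℝ,
        ∀ j, mu j = (lam (eR j) + ((n : ℝ) - 1) / (n + 1)) / n := ⟨_, fun _ => rfl⟩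
    have hmu0 : ∀ j, 0 ≤ mu j := by
      intro j
      have h7 := hlam (eR j)
      rw [hmu]
      apply div_nonneg _ hn'.le
      have : -((n : ℝ) - 1) / (n + 1) = -(((n : ℝ) - 1) / (n + 1)) := by ring
      rw [this] at h7
      linarith
    have hmu1 : ∑ j, mu j = 1 := by
      rw [Finset.sum_congr rfl (fun j _ => hmu j)]
      rw [← Finset.sum_div, Finset.sum_add_distrib, Equiv.sum_comp eR lam, hlam1]
      simp only [Finset.sum_const, Finset.card_univ, Fintype.card_fin, nsmul_eq_mul]
      push_cast
      field_simp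
      ring
    have hmuV : ∀ i : Fin n, ∑ j, mu j * V (eR j) (eC i) = z (eC i) / n := by
      intro i
      have h8 : ∀ j, mu j * V (eR j) (eC i)
          = (lam (eR j) * V (eR j) (eC i) + ((n : ℝ) - 1) / (n + 1) * V (eR j) (eC i)) / n := by
        intro j
        rw [hmu]
        ring
      rw [Finset.sum_congr rfl (fun j _ => h8 j), ← Finset.sum_div, Finset.sum_add_distrib,
        Equiv.sum_comp eR (fun j => lam j * V j (eC i)), hlamV, ← Finset.mul_sum,
        Equiv.sum_comp eR (fun j => V j (eC i)), hbal]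
      simp
    refine ⟨∑ j, mu j • v j, ?_, ?_⟩
    · apply (convex_convexHull ℝ (Set.range v)).sum_mem (fun j _ => hmu0 j) hmu1
      intro j _
      exact subset_convexHull ℝ _ (Set.mem_range_self j)
    · rw [hcent]
      ext i
      simp only [AffineMap.homothety_apply, vsub_eq_sub, vadd_eq_add, Pi.add_apply, Pi.smul_apply,
        Pi.sub_apply, Finset.sum_apply, smul_eq_mul, v]
      have h9 : ∑ j, mu j * ((1 + V (eR j) (eC i)) / 2) = 1 / 2 + z (eC i) / n / 2 := by
        rw [← hmuV i]
        have : ∀ j, mu j * ((1 + V (eR j) (eC i)) / 2) = mu j / 2 + mu j * V (eR j) (eC i) / 2 := by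
          intro j
          ring
        rw [Finset.sum_congr rfl (fun j _ => this j), Finset.sum_add_distrib, ← Finset.sum_div,
          ← Finset.sum_div, hmu1]
      rw [h9]
      simp only [z, Equiv.symm_apply_apply]
      field_simp
      ring

/-- The criterion for explicit rational matrices. -/
theorem keyQ (n : ℕ) (hn : 0 < n) (V U : Fin (n + 1) → Fin n → ℚ)
    (hV : ∀ j i, |V j i| ≤ 1)
    (hbal : ∀ i, ∑ j, V j i = 0)
    (hU0 : ∀ i, ∑ j, U j i = 0)
    (horth : ∀ i i', ∑ j, U j i * V j i' = if i = i' then 1 else 0)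
    (hnorm : ∀ j, (n + 1) * ∑ i, |U j i| ≤ n) :
    ∃ v : Fin (n + 1) → (Fin n → ℝ),
        AffineIndependent ℝ v ∧
        (∀ i j, v i j ∈ Set.Icc (0 : ℝ) 1) ∧
        ∀ x : Fin n → ℝ, (∀ j, x j ∈ Set.Icc (0 : ℝ) 1) →
          x ∈ ⇑(AffineMap.homothety (Finset.univ.centroid ℝ v) (n : ℝ)) ''
            convexHull ℝ (Set.range v) := by
  have hm : (0 : ℝ) < n + 1 := by positivity
  refine key n hn (Equiv.refl _) (Equiv.refl _) (fun j i => (V j i : ℝ)) (fun j i => (U j i : ℝ))
    ?_ ?_ ?_ ?_ ?_
  · intro j i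
    have := hV j i
    have h2 : ((|V j i| : ℚ) : ℝ) ≤ ((1 : ℚ) : ℝ) := Rat.cast_le.2 this
    simpa using h2
  · intro i
    have := hbal i
    have h2 : ((∑ j, V j i : ℚ) : ℝ) = ((0 : ℚ) : ℝ) := by rw [this]
    simpa using h2
  · intro i
    have := hU0 i
    have h2 : ((∑ j, U j i : ℚ) : ℝ) = ((0 : ℚ) : ℝ) := by rw [this]
    simpa using h2
  · intro i i'
    have := horth i i'
    have h2 : ((∑ j, U j i * V j i' : ℚ) : ℝ) = (((if i = i' then 1 else 0) : ℚ) : ℝ) := by
      rw [this]
    by_cases h : i = i'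
    · simpa [h] using h2
    · simpa [h] using h2
  · intro j
    have := hnorm j
    rw [le_div_iff₀ hm]
    have h2 : (((n + 1) * ∑ i, |U j i| : ℚ) : ℝ) ≤ ((n : ℚ) : ℝ) := Rat.cast_le.2 this
    push_cast at h2
    linarith

end Pool.Agent.Helper573.Simplex
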